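import Pool.Agent.helper13.UN.SpecG

/-!
# Row unh:SPT: splitting of a sum over `b` into the classes modulo `b f`
-/

set_option autoImplicit false

open NumberField Complex

namespace Pool.Agent.UN

section

variable {K : Type} [Field K] [NumberField K]

omit [NumberField K] in
theorem SPT_ou {f : Ideal (𝓞 K)} (u : 𝓞 K ⧸ f) : Ideal.Quotient.mk f (ou u) = u :=
  Function.surjInv_eq Ideal.Quotient.mk_surjective u

theorem SPT_sub {f : Ideal (𝓞 K)} (x : 𝓞 K) : x - ou (Ideal.Quotient.mk f x) ∈ f := by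
  rw [← Ideal.Quotient.eq, SPT_ou]

theorem SPT_mem {b f : Ideal (𝓞 K)} {ν : 𝓞 K} (hν : ν ∈ b) (hN : ∀ x ∈ b, x - ν * x ∈ b * f) {x : 𝓞 K}
    (hx : x ∈ b) : x - ν * ou (Ideal.Quotient.mk f x) ∈ b * f := by
  have h1 := hN x hx
  have h2 : ν * (x - ou (Ideal.Quotient.mk f x)) ∈ b * f := Ideal.mul_mem_mul hν (SPT_sub x)
  have h3 : x - ν * ou (Ideal.Quotient.mk f x) =
      (x - ν * x) + ν * (x - ou (Ideal.Quotient.mk f x)) := by ring
  rw [h3]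
  exact (b * f).add_mem h1 h2

theorem SPT_mk {b f : Ideal (𝓞 K)} {ν : 𝓞 K} (hbf : b * f ≤ f) (hν1 : ν - 1 ∈ f) (u : 𝓞 K ⧸ f) {z : 𝓞 K} (hz : z ∈ b * f) :
    Ideal.Quotient.mk f (z + ν * ou u) = u := by
  have h1 : Ideal.Quotient.mk f z = 0 := Ideal.Quotient.eq_zero_iff_mem.2 (hbf hz)
  have h2 : Ideal.Quotient.mk f ν = 1 := by
    rw [← map_one (Ideal.Quotient.mk f), Ideal.Quotient.eq]
    exact hν1
  rw [map_add, map_mul, h1, h2, SPT_ou, zero_add, one_mul]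

/-- the equivalence -/
noncomputable def SPT_e {b f : Ideal (𝓞 K)} {ν : 𝓞 K} (hbf : b * f ≤ f) (hbb : b * f ≤ b) (hν : ν ∈ b) (hν1 : ν - 1 ∈ f)
    (hN : ∀ x ∈ b, x - ν * x ∈ b * f) : ((𝓞 K ⧸ f) × (b * f : Ideal (𝓞 K))) ≃ b where
  toFun p := ⟨(p.2 : 𝓞 K) + ν * ou p.1, b.add_mem (hbb p.2.2) (b.mul_mem_right _ hν)⟩
  invFun x := (Ideal.Quotient.mk f (x : 𝓞 K), ⟨(x : 𝓞 K) - ν * ou (Ideal.Quotient.mk f (x : 𝓞 K)), SPT_mem hν hN x.2⟩)
  left_inv := by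
    rintro ⟨u, z⟩
    have h := SPT_mk hbf hν1 u z.2
    refine Prod.ext h (Subtype.ext ?_)
    change (z : 𝓞 K) + ν * ou u - ν * ou (Ideal.Quotient.mk f ((z : 𝓞 K) + ν * ou u)) = z
    rw [h]
    ring
  right_inv := by
    intro x
    refine Subtype.ext ?_
    change (x : 𝓞 K) - ν * ou (Ideal.Quotient.mk f (x : 𝓞 K)) + ν * ou (Ideal.Quotient.mk f (x : 𝓞 K)) = x
    ring

end

theorem SPT (hNUC : NUC_stmt) : SPT_stmt := by
  classical
  intro K _ _ b f F ν h hb hf hF hν hν1 hbf hs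
  have hN := (hNUC K b f hb hbf).2 ν hν hν1
  have hbf1 : b * f ≤ f := Ideal.mul_le.2 fun r _ s hs => f.mul_mem_left r hs
  have hbb : b * f ≤ b := Ideal.mul_le.2 fun r hr s _ => b.mul_mem_right s hr
  have hle : ∀ x : 𝓞 K, ‖F x‖ ≤ 1 := by
    intro x
    by_cases hx : Ideal.span {x} ⊔ f = ⊤
    · exact (hF.unit x hx).le
    · rw [hF.zero x hx, norm_zero]
      exact zero_le_one
  have hS : Summable (fun x : b => F (x : 𝓞 K) * h (x : 𝓞 K)) := by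
    refine Summable.of_norm_bounded hs.norm fun x => ?_
    rw [norm_mul]
    exact mul_le_of_le_one_left (norm_nonneg _) (hle _)
  refine ⟨hS, ?_⟩
  have : Finite (𝓞 K ⧸ f) := Ideal.finiteQuotientOfFreeOfNeBot f hf
  have := Fintype.ofFinite (𝓞 K ⧸ f)
  have hS2 : Summable (fun p : (𝓞 K ⧸ f) × (b * f : Ideal (𝓞 K)) =>
      F (SPT_e hbf1 hbb hν hν1 hN p : 𝓞 K) * h (SPT_e hbf1 hbb hν hν1 hN p : 𝓞 K)) :=
    (SPT_e hbf1 hbb hν hν1 hN).summable_iff.2 hS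
  rw [← (SPT_e hbf1 hbb hν hν1 hN).tsum_eq (fun x : b => F (x : 𝓞 K) * h (x : 𝓞 K)), hS2.tsum_prod, tsum_fintype,
    finsum_eq_sum_of_fintype]
  refine Finset.sum_congr rfl fun u _ => ?_
  rw [← tsum_mul_left]
  refine tsum_congr fun z => ?_
  change F ((z : 𝓞 K) + ν * ou u) * h ((z : 𝓞 K) + ν * ou u) = F (ou u) * h ((z : 𝓞 K) + ν * ou u)
  have h1 : F ((z : 𝓞 K) + ν * ou u) = F (ou u) := by
    refine hF.per _ _ ?_
    rw [← Ideal.Quotient.eq, SPT_mk hbf1 hν1 u z.2, SPT_ou]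
  rw [h1]

end Pool.Agent.UN
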